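import Mathlib
import Pool.Agent.NagGon.Final

/-!
Strong Nagata conjecture for curves of small gonality: an irreducible plane curve of degree `d`
and gonality at most `g` with multiplicities at least `m i` at very general points satisfies
`∑ m i ≤ (g + 2) * d`.
-/

namespace Pool.Agent.Results.MP_b180eb_ag.GonalityBound

universe u

/-- The polynomial `F` vanishes at the point `(a, b)` to order at least `m`: all coefficients of
`F (x + a, y + b)` in total degrees less than `m` are zero. -/
def MultAtLeast {K : Type u} [Field K] (F : MvPolynomial (Fin 2) K) (a b : K) (m : ℕ) : Prop :=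
  ∀ s : Fin 2 →₀ ℕ, s 0 + s 1 < m →
    MvPolynomial.coeff s (MvPolynomial.aeval
      ![MvPolynomial.X 0 + MvPolynomial.C a, MvPolynomial.X 1 + MvPolynomial.C b] F :
        MvPolynomial (Fin 2) K) = 0

/-- The plane curve `F = 0` is dominated by a curve of gonality at most `g`: there are a field `L`
over `K`, a generic point `(x, y)` of `F = 0` with coordinates in `L`, and an element `h` of `L`
transcendental over `K` such that the degree of `L` over `K (h)` is at most `g`. -/
def DominatedByGonality {K : Type u} [Field K] (F : MvPolynomial (Fin 2) K) (g : ℕ) : Prop :=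
  ∃ (L : Type u) (_ : Field L) (_ : Algebra K L) (x y h : L),
    RingHom.ker (MvPolynomial.aeval ![x, y] : MvPolynomial (Fin 2) K →ₐ[K] L) = Ideal.span {F} ∧
    Transcendental K h ∧ FiniteDimensional (IntermediateField.adjoin K {h}) L ∧
    Module.finrank (IntermediateField.adjoin K {h}) L ≤ g

theorem result : ∀ (K : Type u) [Field K] [IsAlgClosed K] [CharZero K] (n : ℕ) (a b : Fin n → K),
    AlgebraicIndependent ℚ (Sum.elim a b) →
    ∀ F : MvPolynomial (Fin 2) K, Irreducible F →
    ∀ m : Fin n → ℕ, (∀ i, MultAtLeast F (a i) (b i) (m i)) →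
    ∀ g : ℕ, DominatedByGonality F g →
      ∑ i, m i ≤ (g + 2) * F.totalDegree ∧
      ((∀ i, (g + 2) * m i < F.totalDegree) → ∑ i, m i ^ 2 < F.totalDegree ^ 2) := by
  intro K _ _ _ n a b hind F hF m hm g hg
  have h1 : ∑ i, m i ≤ (g + 2) * F.totalDegree :=
    NagGon.gonality_inequality a b hind F hF.ne_zero m hm g hg
  refine ⟨h1, fun h2 => ?_⟩
  have hd : 0 < F.totalDegree := by
    by_contra hcon
    have h0 : F.totalDegree = 0 := by omega
    rw [MvPolynomial.totalDegree_eq_zero_iff_eq_C] at h0
    apply hF.not_isUnit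
    rw [h0]
    apply IsUnit.map
    rw [isUnit_iff_ne_zero]
    intro h3
    rw [h3, MvPolynomial.C_0] at h0
    exact hF.ne_zero h0
  have h3 : (g + 2) * ∑ i, m i ^ 2 ≤ (F.totalDegree - 1) * ∑ i, m i := by
    rw [Finset.mul_sum, Finset.mul_sum]
    refine Finset.sum_le_sum fun i _ => ?_
    have h4 := h2 i
    have h5 : (g + 2) * m i ≤ F.totalDegree - 1 := by omega
    calc (g + 2) * m i ^ 2 = ((g + 2) * m i) * m i := by ring
      _ ≤ (F.totalDegree - 1) * m i := Nat.mul_le_mul_right _ h5
  have h6 : (g + 2) * ∑ i, m i ^ 2 ≤ (g + 2) * ((F.totalDegree - 1) * F.totalDegree) := by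
    refine h3.trans ?_
    calc (F.totalDegree - 1) * ∑ i, m i ≤ (F.totalDegree - 1) * ((g + 2) * F.totalDegree) :=
          Nat.mul_le_mul_left _ h1
      _ = _ := by ring
  have h7 : ∑ i, m i ^ 2 ≤ (F.totalDegree - 1) * F.totalDegree :=
    Nat.le_of_mul_le_mul_left h6 (by omega)
  refine h7.trans_lt ?_
  rw [pow_two]
  exact Nat.mul_lt_mul_of_pos_right (by omega) hd

end Pool.Agent.Results.MP_b180eb_ag.GonalityBound
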